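import Pool.Agent.H16.SP.Stel

/-!
# Stellar spheres with labelled vertices
-/

set_option autoImplicit false

noncomputable section

namespace Pool.Agent.H16.SP

open Pool.Agent.N496.LT Pool.Agent.N496.LT.E1P
open Pool.Agent.H77.SP

/-- the induced graph of `G` on `s` is obtained from the cross polytope by edge subdivisions and their inverses -/
def StelN (d : ℕ) (s : Set ℕ) (G : SimpleGraph ℕ) : Prop :=
  ∃ (n : ℕ) (e : Fin n → ℕ), Function.Injective e ∧ (∀ x, x ∈ s ↔ ∃ i, e i = x) ∧ Stel d (G.comap e)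

theorem StelN_sub {d : ℕ} {s : Set ℕ} {G G' : SimpleGraph ℕ} {a b z : ℕ} (hz : z ∉ s) (ha : a ∈ s) (hb : b ∈ s)
    (hab : G.Adj a b) (h1 : ∀ x ∈ s, ∀ y ∈ s, (G'.Adj x y ↔ G.Adj x y ∧ s(x, y) ≠ s(a, b)))
    (h2 : ∀ x ∈ s, (G'.Adj z x ↔ x = a ∨ x = b ∨ (G.Adj a x ∧ G.Adj b x))) (h : StelN d s G) :
    StelN d (insert z s) G' := by
  obtain ⟨n, e, he, hr, hS⟩ := h
  obtain ⟨i, rfl⟩ := (hr a).1 ha
  obtain ⟨j, rfl⟩ := (hr b).1 hb
  have hm : ∀ x, e x ∈ s := fun x => (hr _).2 ⟨x, rfl⟩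
  refine ⟨n + 1, Fin.snoc (α := fun _ => ℕ) e z, ?_, ?_, ?_⟩
  · intro x y hxy
    induction x using Fin.lastCases with
    | last =>
      induction y using Fin.lastCases with
      | last => rfl
      | cast y =>
        rw [Fin.snoc_last, Fin.snoc_castSucc] at hxy
        exact absurd (hxy ▸ hm y) hz
    | cast x =>
      induction y using Fin.lastCases with
      | last =>
        rw [Fin.snoc_last, Fin.snoc_castSucc] at hxy
        exact absurd (hxy ▸ hm x) hz
      | cast y =>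
        rw [Fin.snoc_castSucc, Fin.snoc_castSucc] at hxy
        rw [he hxy]
  · intro x
    constructor
    · rintro (h | h)
      · exact ⟨Fin.last n, by rw [Fin.snoc_last]; exact h.symm⟩
      · obtain ⟨k, hk⟩ := (hr x).1 h
        exact ⟨k.castSucc, by rw [Fin.snoc_castSucc]; exact hk⟩
    · rintro ⟨k, hk⟩
      induction k using Fin.lastCases with
      | last =>
        rw [Fin.snoc_last] at hk
        exact Or.inl hk.symm
      | cast k =>
        rw [Fin.snoc_castSucc] at hk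
        exact Or.inr ((hr x).2 ⟨k, hk⟩)
  · rw [comap_snoc (G := G) (i := i) (j := j) e
      (fun x y => by rw [h1 _ (hm x) _ (hm y), sym_img he])
      (fun x => by rw [h2 _ (hm x), he.eq_iff, he.eq_iff])]
    exact Stel.sub (show (G.comap e).Adj i j from hab) hS

theorem StelN_weld {d : ℕ} {s : Set ℕ} {G G' : SimpleGraph ℕ} {a b z : ℕ} (hz : z ∉ s) (ha : a ∈ s) (hb : b ∈ s)
    (hab : G.Adj a b) (h1 : ∀ x ∈ s, ∀ y ∈ s, (G'.Adj x y ↔ G.Adj x y ∧ s(x, y) ≠ s(a, b)))
    (h2 : ∀ x ∈ s, (G'.Adj z x ↔ x = a ∨ x = b ∨ (G.Adj a x ∧ G.Adj b x))) (h : StelN d (insert z s) G') :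
    StelN d s G := by
  obtain ⟨n', e', he', hr', hS⟩ := h
  obtain ⟨k, hk⟩ := (hr' z).1 (Or.inl rfl)
  obtain ⟨n, rfl⟩ : ∃ n, n' = n + 1 := by
    cases n' with
    | zero => exact k.elim0
    | succ n => exact ⟨n, rfl⟩
  obtain ⟨e, hed⟩ : ∃ e : Fin n → ℕ, e = fun i => e' (k.succAbove i) := ⟨_, rfl⟩
  have he : Function.Injective e := by
    rw [hed]
    exact he'.comp Fin.succAbove_right_injective
  have hr : ∀ x, x ∈ s ↔ ∃ i, e i = x := by
    intro x
    constructor
    · intro hx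
      obtain ⟨m, hm⟩ := (hr' x).1 (Or.inr hx)
      have hmk : m ≠ k := by
        rintro rfl
        rw [hk] at hm
        exact hz (hm ▸ hx)
      obtain ⟨i, hi⟩ := Fin.exists_succAbove_eq hmk
      exact ⟨i, by rw [hed]; show e' _ = x; rw [hi, hm]⟩
    · rintro ⟨i, hi⟩
      rw [hed] at hi
      have hi : e' (k.succAbove i) = x := hi
      rcases (hr' x).2 ⟨_, hi⟩ with h | h
      · exfalso
        have h : x = z := h
        rw [h, ← hk] at hi
        exact Fin.succAbove_ne k i (he' hi)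
      · exact h
  have hm : ∀ x, e x ∈ s := fun x => (hr _).2 ⟨x, rfl⟩
  obtain ⟨i, rfl⟩ := (hr a).1 ha
  obtain ⟨j, rfl⟩ := (hr b).1 hb
  refine ⟨n, e, he, hr, Stel.weld (show (G.comap e).Adj i j from hab) ?_⟩
  rw [← comap_snoc (G' := G') (z := z) (G := G) (i := i) (j := j) e
      (fun x y => by rw [h1 _ (hm x) _ (hm y), sym_img he])
      (fun x => by rw [h2 _ (hm x), he.eq_iff, he.eq_iff])]
  refine Stel.iso ((finSuccEquivLast).trans (finSuccEquiv' k).symm) ?_ hS
  have hse : ∀ x : Fin (n + 1), Fin.snoc (α := fun _ => ℕ) e z x =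
      e' (((finSuccEquivLast).trans (finSuccEquiv' k).symm) x) := by
    intro x
    induction x using Fin.lastCases with
    | last =>
      rw [Fin.snoc_last, Equiv.trans_apply, finSuccEquivLast_last, finSuccEquiv'_symm_none, hk]
    | cast x =>
      rw [Fin.snoc_castSucc, Equiv.trans_apply, finSuccEquivLast_castSucc, finSuccEquiv'_symm_some, hed]
  intro x y
  rw [SimpleGraph.comap_adj, SimpleGraph.comap_adj, hse, hse]

theorem StelN_fin {d N : ℕ} {G : SimpleGraph ℕ} (h : StelN d {x | x < N} G) :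
    Stel d (G.comap (fun i : Fin N => i.1)) := by
  obtain ⟨n, e, he, hr, hS⟩ := h
  have hlt : ∀ i, e i < N := fun i => (hr _).2 ⟨i, rfl⟩
  have hb : Function.Bijective (fun i : Fin n => (⟨e i, hlt i⟩ : Fin N)) := by
    constructor
    · intro i j hij
      exact he (congrArg Fin.val hij)
    · intro x
      obtain ⟨i, hi⟩ := (hr x.1).1 x.2
      exact ⟨i, Fin.ext hi⟩
  refine Stel.iso (Equiv.ofBijective _ hb).symm ?_ hS
  intro x y
  have hx := (Equiv.ofBijective _ hb).apply_symm_apply x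
  have hy := (Equiv.ofBijective _ hb).apply_symm_apply y
  rw [SimpleGraph.comap_adj, SimpleGraph.comap_adj]
  have hx' : e ((Equiv.ofBijective _ hb).symm x) = x.1 := congrArg Fin.val hx
  have hy' : e ((Equiv.ofBijective _ hb).symm y) = y.1 := congrArg Fin.val hy
  rw [hx', hy']

/-- the cross polytope with labels -/
theorem StelN_base {d : ℕ} {G : SimpleGraph ℕ} (e : Fin (2 * (2 * d + 1)) → ℕ) (he : Function.Injective e)
    (h : ∀ i j, G.Adj (e i) (e j) ↔ i.1 / 2 ≠ j.1 / 2) : StelN d (Set.range e) G := by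
  refine ⟨_, e, he, fun x => Iff.rfl, ?_⟩
  have : G.comap e = cp (2 * d + 1) := by
    ext i j
    exact h i j
  rw [this]
  exact Stel.base

end Pool.Agent.H16.SP
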