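import Pool.Agent.H77.SP.Chk
import Pool.Agent.H16.SP.StelN

/-!
# Checking lists of moves: the invariant with stellar spheres
-/

set_option autoImplicit false

namespace Pool.Agent.H16.SP

open Pool.Agent.H77.SP

/-- the graph of `A`, `M` is obtained from the cross polytope by edge subdivisions and their inverses -/
def InvS (d W A M : ℕ) : Prop := ∃ G : SimpleGraph ℕ,
  (∀ a < W, ∀ b < W, (M.testBit (a * W + b) = true ↔ G.Adj a b)) ∧
  (∀ a b, G.Adj a b → A.testBit a = true) ∧ (∀ a, A.testBit a = true → a < W - 1) ∧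
  StelN d {a | A.testBit a = true} G

theorem step_invS {d W O K : ℕ} (h : OK W O K) (m : Mv) {A M A' M' : ℕ} (hI : InvS d W A M)
    (hs : step W O K m A M = some (A', M')) : InvS d W A' M' := by
  obtain ⟨k, s, t, z⟩ := m
  obtain ⟨G, g1, g2, g3, g4⟩ := hI
  have g2' : ∀ a b, G.Adj a b → A.testBit b = true := fun a b hab => g2 b a hab.symm
  have hW := h.pos
  cases k with
  | true =>
    simp only [step] at hs
    rw [Bool.cond_eq_ite] at hs
    split_ifs at hs with hc
    rw [Option.some.injEq, Prod.mk.injEq] at hs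
    obtain ⟨rfl, rfl⟩ := hs
    simp only [Bool.and_eq_true, Nat.blt_eq, Bool.not_eq_true'] at hc
    obtain ⟨⟨⟨⟨hst, hz⟩, hz1⟩, hs1⟩, ht1⟩ := hc
    have hst' : G.Adj s t := (g1 s (by omega) t (by omega)).1 hst
    have hsA : A.testBit s = true := g2 _ _ hst'
    have htA : A.testBit t = true := g2' _ _ hst'
    have hzs : z ≠ s := by rintro rfl; rw [hsA] at hz; exact absurd hz (by decide)
    have hzt : z ≠ t := by rintro rfl; rw [htA] at hz; exact absurd hz (by decide)
    have hmid : ∀ x < W, ((mid W M s t).testBit x = true ↔ x = s ∨ x = t ∨ (G.Adj s x ∧ G.Adj t x)) := by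
      intro x hx
      rw [testBit_mid x hx, g1 s (by omega) x hx, g1 t (by omega) x hx]
    have hmA : ∀ x, (mid W M s t).testBit x = true → A.testBit x = true := by
      intro x hx
      have hxW := testBit_mid_lt (by omega) (by omega) x hx
      rcases (hmid x hxW).1 hx with h1 | h1 | h1
      · rw [h1]; exact hsA
      · rw [h1]; exact htA
      · exact g2' _ _ h1.1
    have hmlt : mid W M s t < 2 ^ (W - 1) := lt_of_bits fun a ha => g3 a (hmA a ha)
    -- the new graph
    obtain ⟨G', hG'⟩ : ∃ G' : SimpleGraph ℕ, ∀ a b, G'.Adj a b ↔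
        (G.Adj a b ∧ s(a, b) ≠ s(s, t)) ∨ (a = z ∧ (mid W M s t).testBit b = true) ∨
        (b = z ∧ (mid W M s t).testBit a = true) := by
      refine ⟨{ Adj := fun a b => (G.Adj a b ∧ s(a, b) ≠ s(s, t)) ∨ (a = z ∧ (mid W M s t).testBit b = true) ∨
        (b = z ∧ (mid W M s t).testBit a = true), symm := ⟨?_⟩, loopless := ⟨?_⟩ }, fun a b => Iff.rfl⟩
      · rintro a b (⟨h1, h2⟩ | h1 | h1)
        · exact Or.inl ⟨h1.symm, by rwa [Sym2.eq_swap]⟩
        · exact Or.inr (Or.inr h1)
        · exact Or.inr (Or.inl h1)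
      · rintro a (⟨h1, h2⟩ | ⟨h1, h2⟩ | ⟨h1, h2⟩)
        · exact G.loopless.irrefl _ h1
        · rw [h1] at h2
          rw [hmA z h2] at hz
          exact absurd hz (by decide)
        · rw [h1] at h2
          rw [hmA z h2] at hz
          exact absurd hz (by decide)
    have hset : {a | (A ||| 2 ^ z).testBit a = true} = insert z {a | A.testBit a = true} := by
      ext a
      show (A ||| 2 ^ z).testBit a = true ↔ a = z ∨ A.testBit a = true
      rw [Nat.testBit_lor, Bool.or_eq_true, Nat.testBit_two_pow, decide_eq_true_eq]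
      constructor
      · rintro (h1 | h1)
        · exact Or.inr h1
        · exact Or.inl h1.symm
      · rintro (h1 | h1)
        · exact Or.inr h1.symm
        · exact Or.inl h1
    refine ⟨G', ?_, ?_, ?_, ?_⟩
    · intro a ha b hb
      rw [Nat.testBit_lor, Bool.or_eq_true, testBit_cross h hmlt ha (by omega) hb, hG', Nat.testBit_xor]
      refine or_congr ?_ Iff.rfl
      have e1 := g1 a ha b hb
      have e2 := testBit_eb (a := a) (s := s) (t := t) (by omega) (by omega) hb
      rw [Ne, Sym2.eq_iff, ← e2, ← e1]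
      cases h1 : M.testBit (a * W + b) <;> cases h2 : (eb W s t).testBit (a * W + b)
      · decide
      · exfalso
        rcases e2.1 h2 with ⟨h3, h4⟩ | ⟨h3, h4⟩
        · rw [h3, h4, hst] at h1
          exact absurd h1 (by decide)
        · rw [e1.2 (by rw [h3, h4]; exact hst'.symm)] at h1
          exact absurd h1 (by decide)
      · decide
      · decide
    · intro a b hab
      rw [hG'] at hab
      rw [Nat.testBit_lor, Bool.or_eq_true, Nat.testBit_two_pow, decide_eq_true_eq]
      rcases hab with ⟨h1, -⟩ | ⟨h1, -⟩ | ⟨-, h1⟩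
      · exact Or.inl (g2 _ _ h1)
      · exact Or.inr h1.symm
      · exact Or.inl (hmA a h1)
    · intro a ha
      rw [Nat.testBit_lor, Bool.or_eq_true, Nat.testBit_two_pow, decide_eq_true_eq] at ha
      rcases ha with h1 | h1
      · exact g3 a h1
      · omega
    · rw [hset]
      have hzn : z ∉ {a | A.testBit a = true} := by
        intro h1
        have h1 : A.testBit z = true := h1
        rw [hz] at h1
        exact absurd h1 (by decide)
      refine StelN_sub (a := s) (b := t) hzn hsA htA hst' ?_ ?_ g4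
      · intro x hx y hy
        rw [hG']
        constructor
        · rintro (h1 | ⟨h1, -⟩ | ⟨h1, -⟩)
          · exact h1
          · exact absurd (h1 ▸ hx) hzn
          · exact absurd (h1 ▸ hy) hzn
        · exact Or.inl
      · intro x hx
        have hx' : x < W := by
          have := g3 x hx
          omega
        rw [hG', ← hmid x hx']
        constructor
        · rintro (⟨h1, -⟩ | ⟨-, h1⟩ | ⟨h1, -⟩)
          · exact absurd (g2 _ _ h1) hzn
          · exact h1
          · exact absurd (h1 ▸ hx) hzn
        · exact fun h1 => Or.inr (Or.inl ⟨rfl, h1⟩)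
  | false =>
    simp only [step] at hs
    rw [Bool.cond_eq_ite] at hs
    split_ifs at hs with hc
    rw [Option.some.injEq, Prod.mk.injEq] at hs
    obtain ⟨rfl, rfl⟩ := hs
    simp only [Bool.and_eq_true, Nat.blt_eq, Bool.not_eq_true', Nat.beq_eq] at hc
    obtain ⟨⟨⟨⟨⟨⟨⟨⟨⟨⟨hsA, htA⟩, hzA⟩, hz1⟩, hs1⟩, ht1⟩, hst⟩, hsz⟩, htz⟩, hnst⟩, hrow⟩ := hc
    have hst : s ≠ t := fun e => by rw [e, Nat.beq_refl] at hst; exact absurd hst (by decide)
    have hsz : s ≠ z := fun e => by rw [e, Nat.beq_refl] at hsz; exact absurd hsz (by decide)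
    have htz : t ≠ z := fun e => by rw [e, Nat.beq_refl] at htz; exact absurd htz (by decide)
    have hrW : ∀ x < W, ((row W M z).testBit x = true ↔ G.Adj z x) := by
      intro x hx
      rw [testBit_row, decide_eq_true hx, Bool.true_and, g1 z (by omega) x hx]
    have hrA : ∀ x, (row W M z).testBit x = true → A.testBit x = true := by
      intro x hx
      rw [testBit_row, Bool.and_eq_true, decide_eq_true_eq] at hx
      exact g2' _ _ ((g1 z (by omega) x hx.1).1 hx.2)
    have hrlt : row W M z < 2 ^ (W - 1) := lt_of_bits fun a ha => g3 a (hrA a ha)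
    have hmid : ∀ x < W, ((mid W M s t).testBit x = true ↔ x = s ∨ x = t ∨ (G.Adj s x ∧ G.Adj t x)) := by
      intro x hx
      rw [testBit_mid x hx, g1 s (by omega) x hx, g1 t (by omega) x hx]
    have hzx : ∀ x, x < W → x ≠ z → (G.Adj z x ↔ x = s ∨ x = t ∨ (G.Adj s x ∧ G.Adj t x)) := by
      intro x hx hxz
      rw [← hrW x hx, hrow, Nat.testBit_xor, Nat.testBit_two_pow, decide_eq_false (Ne.symm hxz), Bool.xor_false,
        hmid x hx]
    have hnst' : ¬ G.Adj s t := by
      rw [← g1 s (by omega) t (by omega), hnst]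
      decide
    -- the new graph
    obtain ⟨G', hG'⟩ : ∃ G' : SimpleGraph ℕ, ∀ a b, G'.Adj a b ↔
        (G.Adj a b ∧ a ≠ z ∧ b ≠ z) ∨ (a = s ∧ b = t) ∨ (a = t ∧ b = s) := by
      refine ⟨{ Adj := fun a b => (G.Adj a b ∧ a ≠ z ∧ b ≠ z) ∨ (a = s ∧ b = t) ∨
        (a = t ∧ b = s), symm := ⟨?_⟩, loopless := ⟨?_⟩ }, fun a b => Iff.rfl⟩
      · rintro a b (⟨h1, h2, h3⟩ | ⟨h1, h2⟩ | ⟨h1, h2⟩)
        · exact Or.inl ⟨h1.symm, h3, h2⟩
        · exact Or.inr (Or.inr ⟨h2, h1⟩)
        · exact Or.inr (Or.inl ⟨h2, h1⟩)
      · rintro a (⟨h1, h2⟩ | ⟨h1, h2⟩ | ⟨h1, h2⟩)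
        · exact G.loopless.irrefl _ h1
        · exact hst (h1.symm.trans h2)
        · exact hst (h2.symm.trans h1)
    have hset : {a | A.testBit a = true} = insert z {a | (A ^^^ 2 ^ z).testBit a = true} := by
      ext a
      show A.testBit a = true ↔ a = z ∨ (A ^^^ 2 ^ z).testBit a = true
      rw [Nat.testBit_xor, Nat.testBit_two_pow]
      by_cases h1 : a = z
      · rw [h1, hzA]
        simp
      · rw [decide_eq_false (Ne.symm h1), Bool.xor_false]
        simp [h1]
    have hz' : z ∉ {a | (A ^^^ 2 ^ z).testBit a = true} := by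
      intro h1
      have h1 : (A ^^^ 2 ^ z).testBit z = true := h1
      rw [Nat.testBit_xor, Nat.testBit_two_pow, hzA, decide_eq_true rfl] at h1
      exact absurd h1 (by decide)
    have hA' : ∀ a, a ≠ z → ((A ^^^ 2 ^ z).testBit a = A.testBit a) := by
      intro a ha
      rw [Nat.testBit_xor, Nat.testBit_two_pow, decide_eq_false (Ne.symm ha), Bool.xor_false]
    refine ⟨G', ?_, ?_, ?_, ?_⟩
    · intro a ha b hb
      rw [Nat.testBit_lor, Bool.or_eq_true, testBit_eb (by omega) (by omega) hb, hG', Nat.testBit_xor]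
      refine or_congr ?_ Iff.rfl
      have e1 := g1 a ha b hb
      have e2 := testBit_cross h hrlt ha (by omega : z < W) hb
      rw [hrW a ha, hrW b hb] at e2
      constructor
      · intro h1
        cases h2 : M.testBit (a * W + b) with
        | false =>
          rw [h2] at h1
          have h3 : (cross W O K z (row W M z)).testBit (a * W + b) = true := by simpa using h1
          exfalso
          have h4 : ¬ G.Adj a b := by
            rw [← e1, h2]
            decide
          rcases e2.1 h3 with ⟨h5, h6⟩ | ⟨h5, h6⟩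
          · rw [h5] at h4
            exact h4 h6
          · rw [h5] at h4
            exact h4 h6.symm
        | true =>
          rw [h2] at h1
          have h3 : (cross W O K z (row W M z)).testBit (a * W + b) ≠ true := by
            intro h3
            rw [h3] at h1
            exact absurd h1 (by decide)
          have h4 := e1.1 h2
          refine ⟨h4, ?_, ?_⟩
          · intro h5
            apply h3
            rw [e2]
            exact Or.inl ⟨h5, h5 ▸ h4⟩
          · intro h5
            apply h3
            rw [e2]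
            exact Or.inr ⟨h5, h5 ▸ h4.symm⟩
      · rintro ⟨h1, h2, h3⟩
        rw [e1.2 h1]
        have h4 : (cross W O K z (row W M z)).testBit (a * W + b) = false := by
          rw [← Bool.not_eq_true, e2]
          rintro (⟨h5, -⟩ | ⟨h5, -⟩)
          · exact h2 h5
          · exact h3 h5
        rw [h4]
        decide
    · intro a b hab
      rw [hG'] at hab
      rcases hab with ⟨h1, h2, h3⟩ | ⟨h1, -⟩ | ⟨h1, -⟩
      · rw [hA' a h2]
        exact g2 _ _ h1
      · rw [h1, hA' s hsz]
        exact hsA
      · rw [h1, hA' t htz]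
        exact htA
    · intro a ha
      by_cases h1 : a = z
      · rw [h1]
        exact hz1
      · rw [hA' a h1] at ha
        exact g3 a ha
    · rw [hset] at g4
      have hxz : ∀ x ∈ {a | (A ^^^ 2 ^ z).testBit a = true}, x ≠ z := fun x hx e => hz' (e ▸ hx)
      have hxA : ∀ x ∈ {a | (A ^^^ 2 ^ z).testBit a = true}, A.testBit x = true := fun x hx => by
        have hx' : (A ^^^ 2 ^ z).testBit x = true := hx
        rwa [hA' x (hxz x hx)] at hx'
      refine StelN_weld (a := s) (b := t) (z := z) hz' (show (A ^^^ 2 ^ z).testBit s = true by rw [hA' s hsz]; exact hsA)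
        (show (A ^^^ 2 ^ z).testBit t = true by rw [hA' t htz]; exact htA)
        ((hG' s t).2 (Or.inr (Or.inl ⟨rfl, rfl⟩))) ?_ ?_ g4
      · intro x hx y hy
        have hse : s(x, y) ≠ s(s, t) ↔ ¬ ((x = s ∧ y = t) ∨ (x = t ∧ y = s)) := by rw [Ne, Sym2.eq_iff]
        rw [hG', hse]
        constructor
        · intro h1
          refine ⟨Or.inl ⟨h1, hxz x hx, hxz y hy⟩, ?_⟩
          rintro (⟨h2, h3⟩ | ⟨h2, h3⟩)
          · rw [h2, h3] at h1
            exact hnst' h1
          · rw [h2, h3] at h1
            exact hnst' h1.symm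
        · rintro ⟨⟨h1, -⟩ | h1, h2⟩
          · exact h1
          · exact absurd h1 h2
      · intro x hx
        have hxW : x < W := by
          have := g3 x (hxA x hx)
          omega
        rw [hzx x hxW (hxz x hx), hG', hG']
        constructor
        · rintro (h1 | h1 | ⟨h1, h2⟩)
          · exact Or.inl h1
          · exact Or.inr (Or.inl h1)
          · exact Or.inr (Or.inr ⟨Or.inl ⟨h1, hsz, hxz x hx⟩, Or.inl ⟨h2, htz, hxz x hx⟩⟩)
        · rintro (h1 | h1 | ⟨h1, h2⟩)
          · exact Or.inl h1
          · exact Or.inr (Or.inl h1)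
          · rcases h1 with ⟨h1, -⟩ | ⟨-, h1⟩ | ⟨h1, -⟩
            · rcases h2 with ⟨h2, -⟩ | ⟨h2, -⟩ | ⟨-, h2⟩
              · exact Or.inr (Or.inr ⟨h1, h2⟩)
              · exact absurd h2.symm hst
              · exact Or.inl h2
            · exact Or.inr (Or.inl h1)
            · exact absurd h1 hst

theorem run_invS {d W O K : ℕ} (h : OK W O K) (l : List Mv) : ∀ {A M A' M' : ℕ}, InvS d W A M →
    run W O K l A M = some (A', M') → InvS d W A' M' := by
  induction l with
  | nil =>
    intro A M A' M' hI hr
    simp only [run, Option.some.injEq, Prod.mk.injEq] at hr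
    obtain ⟨rfl, rfl⟩ := hr
    exact hI
  | cons m l ih =>
    intro A M A' M' hI hr
    simp only [run] at hr
    cases h1 : step W O K m A M with
    | none => rw [h1] at hr; exact absurd hr (by simp)
    | some p =>
      obtain ⟨A1, M1⟩ := p
      rw [h1] at hr
      exact ih (step_invS h m hI h1) hr

end Pool.Agent.H16.SP
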