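import Pool.Agent.H77.SP.Start
import Pool.Agent.H16.SP.Chk

/-!
# The start and the end of the computation: the invariant with stellar spheres
-/

set_option autoImplicit false

namespace Pool.Agent.H16.SP

open Pool.Agent.H77.SP

theorem InvS_base {d W : ℕ} (hW : 2 ≤ W) (l : List ℕ) (hl : l.length = 2 * (2 * d + 1)) (hn : l.Nodup)
    (hlt : ∀ a ∈ l, a < W - 1) : InvS d W (lorL l) (lorL (prs W l)) := by
  have hgl : ∀ i < l.length, l.getD i 0 < W := by
    intro i hi
    have := hlt (l.getD i 0) (by rw [List.getD_eq_getElem _ _ hi]; exact List.getElem_mem hi)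
    omega
  obtain ⟨G, hG⟩ : ∃ G : SimpleGraph ℕ, ∀ a b, G.Adj a b ↔ ∃ i < l.length, ∃ j < l.length, i / 2 ≠ j / 2 ∧
      a = l.getD i 0 ∧ b = l.getD j 0 := by
    refine ⟨{ Adj := fun a b => ∃ i < l.length, ∃ j < l.length, i / 2 ≠ j / 2 ∧
      a = l.getD i 0 ∧ b = l.getD j 0, symm := ⟨?_⟩, loopless := ⟨?_⟩ }, fun a b => Iff.rfl⟩
    · rintro a b ⟨i, hi, j, hj, h, h1, h2⟩
      exact ⟨j, hj, i, hi, h.symm, h2, h1⟩
    · rintro a ⟨i, hi, j, hj, h, h1, h2⟩
      apply h
      rw [getD_inj hn hi hj (h1.symm.trans h2)]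
  refine ⟨G, ?_, ?_, ?_, ?_⟩
  · intro a ha b hb
    rw [testBit_lorL, mem_prs, hG]
    constructor
    · rintro ⟨i, hi, j, hj, h, h1⟩
      obtain ⟨h2, h3⟩ := (idx_inj hb (hgl j hj)).1 h1
      exact ⟨i, hi, j, hj, h, h2, h3⟩
    · rintro ⟨i, hi, j, hj, h, h1, h2⟩
      exact ⟨i, hi, j, hj, h, by rw [h1, h2]⟩
  · intro a b h
    rw [hG] at h
    obtain ⟨i, hi, j, hj, h, h1, h2⟩ := h
    rw [testBit_lorL, h1, List.getD_eq_getElem _ _ hi]
    exact List.getElem_mem hi
  · intro a ha
    exact hlt a ((testBit_lorL l a).1 ha)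
  · have hr : {a | (lorL l).testBit a = true} =
        Set.range (fun i : Fin (2 * (2 * d + 1)) => l.getD i.1 0) := by
      ext a
      show (lorL l).testBit a = true ↔ _
      rw [testBit_lorL, List.mem_iff_getElem]
      constructor
      · rintro ⟨i, hi, h⟩
        exact ⟨⟨i, by omega⟩, by show l.getD i 0 = a; rw [List.getD_eq_getElem _ _ hi, h]⟩
      · rintro ⟨i, h⟩
        have hi : i.1 < l.length := by omega
        exact ⟨i.1, hi, by rw [← h]; show _ = l.getD i.1 0; rw [List.getD_eq_getElem _ _ hi]⟩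
    rw [hr]
    refine StelN_base _ ?_ ?_
    · intro i j h
      exact Fin.ext (getD_inj hn (by omega) (by omega) h)
    · intro i j
      rw [hG]
      constructor
      · rintro ⟨i', hi', j', hj', h, h1, h2⟩
        rw [getD_inj hn (show i.1 < l.length by omega) hi' h1, getD_inj hn (show j.1 < l.length by omega) hj' h2]
        exact h
      · intro h
        exact ⟨i.1, by omega, j.1, by omega, h, rfl, rfl⟩

theorem InvS_end {d W N M : ℕ} (hN : N ≤ W) (h : InvS d W (2 ^ N - 1) M) : Stel d (gph W M N) := by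
  obtain ⟨G, g1, g2, g3, g4⟩ := h
  have hs : {a | (2 ^ N - 1).testBit a = true} = {x | x < N} := by
    ext a
    show (2 ^ N - 1).testBit a = true ↔ a < N
    rw [Nat.testBit_two_pow_sub_one, decide_eq_true_eq]
  rw [hs] at g4
  have e : gph W M N = G.comap (fun i : Fin N => i.1) := by
    ext a b
    show (a ≠ b ∧ (M.testBit (a.1 * W + b.1) || M.testBit (b.1 * W + a.1)) = true) ↔ G.Adj a.1 b.1
    rw [Bool.or_eq_true, g1 a.1 (by omega) b.1 (by omega), g1 b.1 (by omega) a.1 (by omega)]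
    constructor
    · rintro ⟨-, h | h⟩
      · exact h
      · exact h.symm
    · intro h
      exact ⟨fun e => G.loopless.irrefl _ (e ▸ h), Or.inl h⟩
  rw [e]
  exact StelN_fin g4

theorem blk_invS {d W O K : ℕ} (h : OK W O K) {l : List Mv} {A M A' M' : ℕ} (hI : InvS d W A M)
    (hb : blk W O K l A M A' M' = true) : InvS d W A' M' := by
  unfold blk at hb
  cases h1 : run W O K l A M with
  | none => rw [h1] at hb; exact absurd hb (by simp)
  | some p =>
    obtain ⟨a, m⟩ := p
    rw [h1] at hb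
    have hb : (Nat.beq a A' && Nat.beq m M') = true := hb
    rw [Bool.and_eq_true] at hb
    rw [← Nat.eq_of_beq_eq_true hb.1, ← Nat.eq_of_beq_eq_true hb.2]
    exact run_invS h l hI h1

end Pool.Agent.H16.SP
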