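import Pool.Agent.H77.SP.SphN

/-!
# Flag complexes which are obtained from the cross polytope by edge subdivisions and inverse edge subdivisions
-/

set_option autoImplicit false

namespace Pool.Agent.H16.SP

open Pool.Agent.H77.SP
open Pool.Agent.N496.LT.Lt (Sph)
open Pool.Agent.N496.LT

/-- `Stel d G`: the graph `G` is obtained from the graph `cp (2 * d + 1)` of the cross polytope of dimension `2 d + 1`
by isomorphisms of graphs, edge subdivisions (`Lt.sd`) and inverse edge subdivisions. So the flag complex of `G` is a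
PL sphere of dimension `2 d`. -/
inductive Stel (d : ℕ) : ∀ {n : ℕ}, SimpleGraph (Fin n) → Prop
  | base : Stel d (cp (2 * d + 1))
  | iso {n m : ℕ} {G : SimpleGraph (Fin n)} {H : SimpleGraph (Fin m)} (e : Fin n ≃ Fin m)
      (h : ∀ a b, G.Adj a b ↔ H.Adj (e a) (e b)) (hH : Stel d H) : Stel d G
  | sub {n : ℕ} {G : SimpleGraph (Fin n)} {s t : Fin n} (h : G.Adj s t) (hG : Stel d G) : Stel d (Lt.sd G s t)
  | weld {n : ℕ} {G : SimpleGraph (Fin n)} {s t : Fin n} (h : G.Adj s t) (hG : Stel d (Lt.sd G s t)) : Stel d G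

theorem Stel.sph {d n : ℕ} {G : SimpleGraph (Fin n)} (h : Stel d G) : Sph d G := by
  induction h with
  | base => exact Sph_cp d
  | iso e h _ ih => exact Sph_iso e h ih
  | sub h _ ih => exact Sph_sub h ih
  | weld h _ ih => exact Sph_weld h ih

theorem Stel.of_Sub {d m n : ℕ} {G : SimpleGraph (Fin m)} {S : SimpleGraph (Fin n)} (h : Lt.Sub G S) (hG : Stel d G) :
    Stel d S := by
  induction h with
  | refl => exact hG
  | step H s t hst _ ih => exact Stel.sub hst ih

end Pool.Agent.H16.SP
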